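import Mathlib

set_option autoImplicit false

open Metric Set MeasureTheory
open scoped ENNReal NNReal

namespace Pool.Agent.N225.MD

/-- the Euclidean space `ℝ^d` -/
abbrev E (d : ℕ) := EuclideanSpace ℝ (Fin d)

/-- `S` is a connected compact set whose closed `r`-neighbourhood contains `M`. -/
structure Covers {d : ℕ} (M : Set (E d)) (r : ℝ) (S : Set (E d)) : Prop where
  cpt : IsCompact S
  conn : IsConnected S
  cov : ∀ x ∈ M, infDist x S ≤ r

/-- `S` is an `r`-minimizer for `M`. -/
structure IsMin {d : ℕ} (M : Set (E d)) (r : ℝ) (S : Set (E d)) : Prop where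
  covers : Covers M r S
  le : ∀ S' : Set (E d), Covers M r S' → μH[1] S ≤ μH[1] S'

/-- the least length of a connected compact set whose `r`-neighbourhood contains `M` -/
noncomputable def len {d : ℕ} (M : Set (E d)) (r : ℝ) : ℝ≥0∞ :=
  ⨅ (S : Set (E d)) (_ : Covers M r S), μH[1] S

/-- `S` is a connected compact set whose convex hull contains the closed unit ball -/
structure Hulls {d : ℕ} (S : Set (E d)) : Prop where
  cpt : IsCompact S
  conn : IsConnected S
  hull : closedBall (0 : E d) 1 ⊆ convexHull ℝ S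

/-- the least length of a connected compact set whose convex hull contains the unit ball -/
noncomputable def hullLen (d : ℕ) : ℝ≥0∞ :=
  ⨅ (S : Set (E d)) (_ : Hulls S), μH[1] S

variable {d : ℕ}

/-- the support function of `S` is at least `ρ` -/
def Supp (ρ : ℝ) (S : Set (E d)) : Prop :=
  ∀ u : E d, ‖u‖ = 1 → ∃ s ∈ S, ρ ≤ inner ℝ u s

lemma Covers.mono {M N : Set (E d)} {r : ℝ} {S : Set (E d)} (h : Covers M r S) (hN : N ⊆ M) :
    Covers N r S := ⟨h.cpt, h.conn, fun x hx => h.cov x (hN hx)⟩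

lemma Covers.ex {M : Set (E d)} {r : ℝ} {S : Set (E d)} (h : Covers M r S) (x : E d)
    (hx : x ∈ M) : ∃ s ∈ S, dist x s ≤ r := by
  obtain ⟨s, hs, he⟩ := h.cpt.exists_infDist_eq_dist h.conn.nonempty x
  exact ⟨s, hs, he ▸ h.cov x hx⟩

/-- a connected set has length at least `t` in the ball of radius `t` -/
lemma conn_ball {S : Set (E d)} (hS : IsPreconnected S) {p q : E d} (hp : p ∈ S) (hq : q ∈ S)
    {t : ℝ} (ht : t ≤ dist q p) : ENNReal.ofReal t ≤ μH[1] (S ∩ ball p t) := by
  have h1 : Ico 0 t ⊆ (fun x => dist x p) '' (S ∩ ball p t) := by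
    intro a ha
    have h2 := hS.intermediate_value hp hq (f := fun x => dist x p)
      (continuous_id.dist continuous_const).continuousOn
    obtain ⟨x, hx, hxa⟩ := h2 (show a ∈ Icc (dist p p) (dist q p) by
      rw [dist_self]; exact ⟨ha.1, ha.2.le.trans ht⟩)
    simp only at hxa
    exact ⟨x, ⟨hx, by rw [mem_ball, hxa]; exact ha.2⟩, hxa⟩
  have h3 : LipschitzWith 1 fun x : E d => dist x p := LipschitzWith.dist_left p
  have h4 := h3.hausdorffMeasure_image_le zero_le_one (S ∩ ball p t)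
  rw [hausdorffMeasure_real] at h4
  have h5 := (measure_mono h1).trans h4
  rw [Real.volume_Ico, sub_zero] at h5
  simpa using h5

/-- separated points -/
lemma packing {S : Set (E d)} (hS : IsPreconnected S) (hc : IsCompact S) (T : Finset (E d))
    {ρ : ℝ} (hTS : ∀ p ∈ T, p ∈ S) (hsep : ∀ p ∈ T, ∀ q ∈ T, p ≠ q → ρ ≤ dist p q)
    (hfar : ∀ p ∈ T, ∃ q ∈ S, ρ / 2 ≤ dist q p) :
    ENNReal.ofReal (T.card * (ρ / 2)) ≤ μH[1] S := by
  have h1 : ∑ p ∈ T, μH[1] (S ∩ ball p (ρ / 2)) ≤ μH[1] S := by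
    rw [← measure_biUnion_finset]
    · exact measure_mono (iUnion₂_subset fun p _ => inter_subset_left)
    · intro p hp q hq hpq
      refine Disjoint.mono inter_subset_right inter_subset_right (ball_disjoint_ball ?_)
      have := hsep p hp q hq hpq
      linarith
    · intro p _
      exact hc.isClosed.measurableSet.inter measurableSet_ball
  refine le_trans ?_ h1
  have h2 : ∑ p ∈ T, ENNReal.ofReal (ρ / 2) ≤ ∑ p ∈ T, μH[1] (S ∩ ball p (ρ / 2)) := by
    refine Finset.sum_le_sum fun p hp => ?_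
    obtain ⟨q, hq, hqd⟩ := hfar p hp
    exact conn_ball hS (hTS p hp) hq hqd
  refine le_trans ?_ h2
  rw [Finset.sum_const, nsmul_eq_mul, ENNReal.ofReal_mul (Nat.cast_nonneg _),
    ENNReal.ofReal_natCast]

/-- the support function -/
lemma Covers.supp {R r : ℝ} {S : Set (E d)} (h : Covers (sphere (0 : E d) R) r S) (hR : 0 ≤ R) :
    Supp (R - r) S := by
  intro u hu
  obtain ⟨s, hs, hd⟩ := h.ex (R • u) (by
    rw [mem_sphere_zero_iff_norm, norm_smul, hu, Real.norm_eq_abs, abs_of_nonneg hR, mul_one])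
  refine ⟨s, hs, ?_⟩
  have h1 : inner ℝ u (R • u - s) ≤ r := by
    refine (real_inner_le_norm _ _).trans ?_
    rw [hu, one_mul, ← dist_eq_norm]
    exact hd
  rw [inner_sub_right, inner_smul_right, real_inner_self_eq_norm_sq, hu] at h1
  linarith

lemma Hulls.supp {S : Set (E d)} (h : Hulls S) : Supp 1 S := by
  intro u hu
  by_contra hcon
  push Not at hcon
  have h1 : Convex ℝ {y : E d | inner ℝ u y < 1} := by
    have := convex_halfSpace_lt (𝕜 := ℝ) (f := fun y : E d => inner ℝ u y)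
      (innerₛₗ ℝ u).isLinear 1
    exact this
  have h2 : convexHull ℝ S ⊆ {y : E d | inner ℝ u y < 1} := convexHull_min hcon h1
  have h3 := h2 (h.hull (show u ∈ closedBall (0 : E d) 1 by simp [hu]))
  replace h3 : inner ℝ u u < (1 : ℝ) := h3
  rw [real_inner_self_eq_norm_sq, hu] at h3
  norm_num at h3

/-- far points -/
lemma Supp.far {ρ : ℝ} {S : Set (E d)} (h : Supp ρ S) (hd : 1 ≤ d) :
    ∃ p ∈ S, ∃ q ∈ S, 2 * ρ ≤ dist p q := by
  have : Nonempty (Fin d) := ⟨⟨0, hd⟩⟩
  obtain ⟨u, hu⟩ := exists_norm_eq (E d) zero_le_one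
  obtain ⟨p, hp, hp2⟩ := h u hu
  obtain ⟨q, hq, hq2⟩ := h (-u) (by rw [norm_neg, hu])
  refine ⟨p, hp, q, hq, ?_⟩
  have h1 : inner ℝ u (p - q) ≤ dist p q := by
    refine (real_inner_le_norm _ _).trans ?_
    rw [hu, one_mul, dist_eq_norm]
  rw [inner_neg_left] at hq2
  rw [inner_sub_right] at h1
  linarith

lemma Supp.far' {ρ : ℝ} {S : Set (E d)} (h : Supp ρ S) (hd : 1 ≤ d)
    (x : E d) : ∃ q ∈ S, ρ ≤ dist q x := by
  obtain ⟨p, hp, q, hq, hpq⟩ := h.far hd
  by_contra hcon
  push Not at hcon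
  have h1 := hcon p hp
  have h2 := hcon q hq
  have h3 := dist_triangle p x q
  rw [dist_comm x q] at h3
  linarith

lemma Supp.two {ρ : ℝ} {S : Set (E d)} (h : Supp ρ S) (hS : IsPreconnected S) (hd : 1 ≤ d) :
    ENNReal.ofReal (2 * ρ) ≤ μH[1] S := by
  obtain ⟨p, hp, q, hq, hpq⟩ := h.far hd
  rw [dist_comm] at hpq
  exact (conn_ball hS hp hq hpq).trans (measure_mono inter_subset_left)

/-- a unit vector orthogonal to few points -/
lemma ex_orth (T : Finset (E d)) (hT : T.card < d) :
    ∃ u : E d, ‖u‖ = 1 ∧ ∀ p ∈ T, inner ℝ u p = 0 := by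
  set K : Submodule ℝ (E d) := Submodule.span ℝ (T : Set (E d)) with hK
  have h1 : Module.finrank ℝ K < d := by
    refine lt_of_le_of_lt (finrank_span_finset_le_card T) hT
  have h2 : Kᗮ ≠ ⊥ := by
    intro h0
    rw [Submodule.orthogonal_eq_bot_iff] at h0
    rw [h0, finrank_top, finrank_euclideanSpace_fin] at h1
    exact lt_irrefl _ h1
  obtain ⟨v, hv, hv0⟩ := Submodule.exists_mem_ne_zero_of_ne_bot h2
  refine ⟨‖v‖⁻¹ • v, by rw [norm_smul, norm_inv, norm_norm, inv_mul_cancel₀ (norm_ne_zero_iff.2 hv0)],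
    fun p hp => ?_⟩
  rw [real_inner_smul_left, real_inner_comm,
    Submodule.inner_right_of_mem_orthogonal (Submodule.subset_span hp) hv, mul_zero]

lemma Supp.pts {ρ : ℝ} {S : Set (E d)} (h : Supp ρ S) (hρ : 0 < ρ) :
    ∀ n ≤ d, ∃ T : Finset (E d), T.card = n ∧ (∀ p ∈ T, p ∈ S) ∧
      ∀ p ∈ T, ∀ q ∈ T, p ≠ q → ρ ≤ dist p q := by
  classical
  intro n
  induction n with
  | zero => intro _; exact ⟨∅, rfl, by simp, by simp⟩
  | succ n ih =>
    intro hn
    obtain ⟨T, hT, hTS, hsep⟩ := ih (by omega)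
    obtain ⟨u, hu, hu2⟩ := ex_orth T (by omega)
    obtain ⟨s, hs, hs2⟩ := h u hu
    have hfar : ∀ p ∈ T, ρ ≤ dist s p := fun p hp => by
      have h1 : inner ℝ u (s - p) ≤ dist s p := by
        refine (real_inner_le_norm _ _).trans ?_
        rw [hu, one_mul, dist_eq_norm]
      rw [inner_sub_right, hu2 p hp] at h1
      linarith
    have hsT : s ∉ T := fun hsT => by
      have := hfar s hsT
      rw [dist_self] at this
      linarith
    refine ⟨insert s T, by rw [Finset.card_insert_of_notMem hsT, hT], ?_, ?_⟩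
    · intro p hp
      rcases Finset.mem_insert.1 hp with rfl | hp
      · exact hs
      · exact hTS p hp
    · intro p hp q hq hpq
      simp only [Finset.mem_insert] at hp hq
      rcases hp with rfl | hp <;> rcases hq with rfl | hq
      · exact absurd rfl hpq
      · exact hfar q hq
      · rw [dist_comm]; exact hfar p hp
      · exact hsep p hp q hq hpq

/-- the length is at least `(d + 1) ρ / 2` -/
lemma Supp.dim {ρ : ℝ} {S : Set (E d)} (h : Supp ρ S) (hρ : 0 < ρ) (hS : IsPreconnected S)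
    (hc : IsCompact S) (hd : 1 ≤ d) : ENNReal.ofReal (((d : ℝ) + 1) * (ρ / 2)) ≤ μH[1] S := by
  classical
  obtain ⟨T, hT, hTS, hsep⟩ := h.pts hρ (d - 1) (by omega)
  obtain ⟨u, hu, hu2⟩ := ex_orth T (by omega)
  have key : ∀ v : E d, ‖v‖ = 1 → (∀ p ∈ T, inner ℝ v p = 0) → ∃ s ∈ S, ρ ≤ inner ℝ v s ∧
      ∀ p ∈ T, ρ ≤ dist s p := fun v hv hv2 => by
    obtain ⟨s, hs, hs2⟩ := h v hv
    refine ⟨s, hs, hs2, fun p hp => ?_⟩
    have h1 : inner ℝ v (s - p) ≤ dist s p := by
      refine (real_inner_le_norm _ _).trans ?_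
      rw [hv, one_mul, dist_eq_norm]
    rw [inner_sub_right, hv2 p hp] at h1
    linarith
  obtain ⟨s, hs, hs2, hs3⟩ := key u hu hu2
  obtain ⟨s', hs', hs2', hs3'⟩ := key (-u) (by rw [norm_neg, hu]) fun p hp => by
    rw [inner_neg_left, hu2 p hp, neg_zero]
  have hss : ρ ≤ dist s s' := by
    have h1 : inner ℝ u (s - s') ≤ dist s s' := by
      refine (real_inner_le_norm _ _).trans ?_
      rw [hu, one_mul, dist_eq_norm]
    rw [inner_neg_left] at hs2'
    rw [inner_sub_right] at h1
    linarith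
  have n1 : s ∉ T := fun hsT => by
    have := hs3 s hsT
    rw [dist_self] at this
    linarith
  have n2 : s' ∉ insert s T := fun hsT => by
    rcases Finset.mem_insert.1 hsT with h0 | h0
    · rw [h0, dist_self] at hss
      linarith
    · have := hs3' s' h0
      rw [dist_self] at this
      linarith
  have hcard : (insert s' (insert s T)).card = d + 1 := by
    rw [Finset.card_insert_of_notMem n2, Finset.card_insert_of_notMem n1, hT]
    omega
  have := packing (T := insert s' (insert s T)) (ρ := ρ) hS hc ?_ ?_ ?_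
  · rw [hcard] at this
    push_cast at this
    exact this
  · intro p hp
    rcases Finset.mem_insert.1 hp with rfl | hp
    · exact hs'
    · rcases Finset.mem_insert.1 hp with rfl | hp
      · exact hs
      · exact hTS p hp
  · intro p hp q hq hpq
    simp only [Finset.mem_insert] at hp hq
    rcases hp with rfl | rfl | hp <;> rcases hq with rfl | rfl | hq
    · exact absurd rfl hpq
    · rw [dist_comm]; exact hss
    · exact hs3' q hq
    · exact hss
    · exact absurd rfl hpq
    · exact hs3 q hq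
    · rw [dist_comm]; exact hs3' p hp
    · rw [dist_comm]; exact hs3 p hp
    · exact hsep p hp q hq hpq
  · intro p _
    obtain ⟨q, hq, hq2⟩ := h.far' hd p
    exact ⟨q, hq, by linarith⟩

end Pool.Agent.N225.MD
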