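import Pool.Agent.N225.MD.A

set_option autoImplicit false

open Metric Set MeasureTheory Filter
open scoped ENNReal NNReal Topology Pointwise

namespace Pool.Agent.N225.MD

variable {d : ℕ}

/-- the convex hull of a compact set of `ℝ^d` is compact (Carathéodory) -/
lemma isCompact_hull {S : Set (E d)} (hS : IsCompact S) (hne : S.Nonempty) :
    IsCompact (convexHull ℝ S) := by
  classical
  obtain ⟨s0, hs0⟩ := hne
  let f : (Fin (d + 1) → ℝ) × (Fin (d + 1) → E d) → E d := fun wz => ∑ i, wz.1 i • wz.2 i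
  have hf : Continuous f := by
    refine continuous_finsetSum _ fun i _ => ?_
    exact ((continuous_apply i).comp continuous_fst).smul ((continuous_apply i).comp continuous_snd)
  have hK : IsCompact (stdSimplex ℝ (Fin (d + 1)) ×ˢ (univ.pi fun _ : Fin (d + 1) => S)) :=
    (isCompact_stdSimplex ℝ (Fin (d + 1))).prod (isCompact_univ_pi fun _ => hS)
  have : convexHull ℝ S = f '' (stdSimplex ℝ (Fin (d + 1)) ×ˢ (univ.pi fun _ : Fin (d + 1) => S)) := by
    apply Subset.antisymm
    · intro x hx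
      obtain ⟨ι, hι, z, w, hz, hai, hw, hw1, hx⟩ := eq_pos_convex_span_of_mem_convexHull hx
      have hcard : Fintype.card ι ≤ Fintype.card (Fin (d + 1)) := by
        have h1 := hai.card_le_finrank_succ
        have h2 : Module.finrank ℝ (vectorSpan ℝ (Set.range z)) ≤ d := by
          have := Submodule.finrank_le (vectorSpan ℝ (Set.range z))
          rwa [finrank_euclideanSpace_fin] at this
        rw [Fintype.card_fin]
        omega
      obtain ⟨e⟩ := Function.Embedding.nonempty_of_card_le hcard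
      refine ⟨(Function.extend e w 0, Function.extend e z fun _ => s0), ⟨⟨?_, ?_⟩, ?_⟩, ?_⟩
      · intro j
        by_cases hj : ∃ i, e i = j
        · obtain ⟨i, rfl⟩ := hj
          simp only [e.injective.extend_apply]
          exact (hw i).le
        · simp only [Function.extend_apply' _ _ _ hj]
          exact le_rfl
      · simp only
        rw [← hw1]
        refine (Fintype.sum_of_injective e e.injective w _ ?_ ?_).symm
        · intro j hj
          rw [Function.extend_apply' _ _ _ (by simpa using hj)]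
          rfl
        · intro i
          rw [e.injective.extend_apply]
      · intro j _
        by_cases hj : ∃ i, e i = j
        · obtain ⟨i, rfl⟩ := hj
          simp only [e.injective.extend_apply]
          exact hz ⟨i, rfl⟩
        · simp only [Function.extend_apply' _ _ _ hj]
          exact hs0
      · simp only [f]
        rw [← hx]
        refine (Fintype.sum_of_injective e e.injective (fun i => w i • z i) _ ?_ ?_).symm
        · intro j hj
          rw [Function.extend_apply' _ _ _ (by simpa using hj), Pi.zero_apply, zero_smul]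
        · intro i
          rw [e.injective.extend_apply, e.injective.extend_apply]
    · rintro _ ⟨⟨w, z⟩, ⟨hw, hz⟩, rfl⟩
      refine (convex_convexHull ℝ S).sum_mem (fun i _ => hw.1 i) hw.2 fun i _ => ?_
      exact subset_convexHull ℝ S (hz i (mem_univ i))
  rw [this]
  exact hK.image hf

lemma Supp.hull {ρ : ℝ} {S : Set (E d)} (h : Supp ρ S) (hS : IsCompact S) (hne : S.Nonempty) :
    closedBall (0 : E d) ρ ⊆ convexHull ℝ S := by
  intro x hx
  by_contra hcon
  obtain ⟨f, a, hfa, hfx⟩ := geometric_hahn_banach_closed_point (convex_convexHull ℝ S)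
    (isCompact_hull hS hne).isClosed hcon
  set v : E d := (InnerProductSpace.toDual ℝ (E d)).symm f with hv
  have hvf : ∀ y, f y = inner ℝ v y := fun y => by
    rw [hv, InnerProductSpace.toDual_symm_apply]
  have hv0 : v ≠ 0 := by
    intro h0
    obtain ⟨s0, hs0⟩ := hne
    have h1 := hfa s0 (subset_convexHull ℝ S hs0)
    rw [hvf, h0, inner_zero_left] at h1
    rw [hvf, h0, inner_zero_left] at hfx
    linarith
  have hvn : 0 < ‖v‖ := norm_pos_iff.2 hv0
  obtain ⟨s, hs, hs2⟩ := h (‖v‖⁻¹ • v) (by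
    rw [norm_smul, norm_inv, norm_norm, inv_mul_cancel₀ hvn.ne'])
  rw [real_inner_smul_left] at hs2
  have h1 := hfa s (subset_convexHull ℝ S hs)
  rw [hvf] at h1 hfx
  have h2 : inner ℝ v x ≤ ‖v‖ * ρ := by
    refine (real_inner_le_norm _ _).trans ?_
    exact mul_le_mul_of_nonneg_left (by simpa using hx) hvn.le
  have h3 : ‖v‖ * ρ ≤ inner ℝ v s := by
    calc ‖v‖ * ρ ≤ ‖v‖ * (‖v‖⁻¹ * inner ℝ v s) := mul_le_mul_of_nonneg_left hs2 hvn.le
      _ = inner ℝ v s := by rw [← mul_assoc, mul_inv_cancel₀ hvn.ne', one_mul]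
  linarith

lemma smul_conn {S : Set (E d)} (hS : IsConnected S) (t : ℝ) : IsConnected (t • S) := by
  have := hS.image (fun x => t • x) (continuous_const_smul t).continuousOn
  rwa [← image_smul]

lemma smul_length {S : Set (E d)} {t : ℝ} (ht : 0 < t) :
    μH[1] (t • S) = ENNReal.ofReal t * μH[1] S := by
  rw [Measure.hausdorffMeasure_smul₀ zero_le_one ht.ne', NNReal.rpow_one]
  rw [ENNReal.smul_def, smul_eq_mul]
  congr 1
  rw [ENNReal.ofReal]
  congr 1
  ext
  rw [coe_nnnorm, Real.norm_eq_abs, abs_of_pos ht, Real.coe_toNNReal _ ht.le]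

lemma smul_smul_closedBall {t ρ : ℝ} (ht : 0 < t) :
    t • closedBall (0 : E d) ρ = closedBall (0 : E d) (t * ρ) := by
  rw [smul_closedBall' ht.ne', smul_zero, Real.norm_eq_abs, abs_of_pos ht]

/-- the lower bound by the hull problem -/
lemma Covers.hulls {R r : ℝ} {S : Set (E d)} (h : Covers (sphere (0 : E d) R) r S) (hR : 0 ≤ R)
    (hr : r < R) : ENNReal.ofReal (R - r) * hullLen d ≤ μH[1] S := by
  have h1 : Hulls ((R - r)⁻¹ • S) := by
    refine ⟨?_, smul_conn h.conn _, ?_⟩
    · rw [← image_smul]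
      exact h.cpt.image (continuous_const_smul _)
    · rw [convexHull_smul]
      have h2 := (h.supp hR).hull h.cpt h.conn.nonempty
      have h3 : closedBall (0 : E d) 1 = (R - r)⁻¹ • closedBall (0 : E d) (R - r) := by
        rw [smul_smul_closedBall (inv_pos.2 (sub_pos.2 hr)), inv_mul_cancel₀ (sub_pos.2 hr).ne']
      rw [h3]
      exact smul_set_mono h2
  have h4 : hullLen d ≤ μH[1] ((R - r)⁻¹ • S) := iInf₂_le _ h1
  rw [smul_length (inv_pos.2 (sub_pos.2 hr))] at h4
  calc ENNReal.ofReal (R - r) * hullLen d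
      ≤ ENNReal.ofReal (R - r) * (ENNReal.ofReal (R - r)⁻¹ * μH[1] S) := by gcongr
    _ = μH[1] S := by
      rw [← mul_assoc, ← ENNReal.ofReal_mul (sub_pos.2 hr).le, mul_inv_cancel₀ (sub_pos.2 hr).ne',
        ENNReal.ofReal_one, one_mul]

/-- from the sphere to the ball -/
lemma Covers.ball {R r : ℝ} {S : Set (E d)} (h : Covers (sphere (0 : E d) R) r S) (hR : 0 < R)
    (hd : 1 ≤ d) (hS : S ⊆ closedBall (0 : E d) r) : Covers (closedBall (0 : E d) R) r S := by
  have : Nonempty (Fin d) := ⟨⟨0, hd⟩⟩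
  refine ⟨h.cpt, h.conn, fun x hx => ?_⟩
  have hx' : ‖x‖ ≤ R := by simpa using hx
  obtain ⟨y, l, hl0, hl1, hy, hxy⟩ : ∃ (y : E d) (l : ℝ), 0 ≤ l ∧ l ≤ 1 ∧ ‖y‖ = R ∧ x = l • y := by
    rcases eq_or_ne x 0 with hx0 | hx0
    · obtain ⟨y, hy⟩ := exists_norm_eq (E d) hR.le
      exact ⟨y, 0, le_rfl, zero_le_one, hy, by rw [hx0, zero_smul]⟩
    · have hn : 0 < ‖x‖ := norm_pos_iff.2 hx0
      refine ⟨(R / ‖x‖) • x, ‖x‖ / R, by positivity, (div_le_one hR).2 hx', ?_, ?_⟩
      · rw [norm_smul, Real.norm_eq_abs, abs_of_pos (by positivity), div_mul_cancel₀ _ hn.ne']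
      · rw [smul_smul, div_mul_div_comm, mul_comm R, div_self (by positivity), one_smul]
  obtain ⟨s, hs, hsy⟩ := h.ex y (by rw [mem_sphere_zero_iff_norm]; exact hy)
  have hc := convex_closedBall s r
  have h0 : (0 : E d) ∈ closedBall s r := by
    rw [mem_closedBall, dist_comm]
    exact hS hs
  have h1 : y ∈ closedBall s r := hsy
  have h2 := hc h0 h1 (sub_nonneg.2 hl1) hl0 (by ring)
  rw [smul_zero, zero_add, ← hxy] at h2
  exact (infDist_le_dist_of_mem hs).trans h2

/-- the upper bound by the hull problem -/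
lemma Hulls.covers {R r t K : ℝ} {S : Set (E d)} (h : Hulls S) (hR : 0 < R) (hr : 0 ≤ r)
    (hd : 1 ≤ d) (ht : 0 < t) (hK : S ⊆ closedBall (0 : E d) K) (h1 : t * K ≤ r)
    (h2 : R ^ 2 - r ^ 2 ≤ 2 * R * t - t ^ 2 * K ^ 2) :
    Covers (closedBall (0 : E d) R) r (t • S) := by
  refine Covers.ball (R := R) ⟨?_, smul_conn h.conn _, ?_⟩ hR hd ?_
  · rw [← image_smul]
    exact h.cpt.image (continuous_const_smul _)
  · intro x hx
    have hx' : ‖x‖ = R := by simpa using hx
    obtain ⟨s, hs, hs2⟩ := h.supp (R⁻¹ • x) (by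
      rw [norm_smul, norm_inv, Real.norm_eq_abs, abs_of_pos hR, hx', inv_mul_cancel₀ hR.ne'])
    refine (infDist_le_dist_of_mem (smul_mem_smul_set hs)).trans ?_
    rw [real_inner_smul_left] at hs2
    have h3 : R ≤ inner ℝ x s := by
      rw [inv_mul_eq_div, le_div_iff₀ hR, one_mul] at hs2
      exact hs2
    have h4 : ‖s‖ ≤ K := by simpa using hK hs
    rw [dist_eq_norm]
    refine le_of_sq_le_sq ?_ hr
    rw [norm_sub_sq_real, norm_smul, Real.norm_eq_abs, abs_of_pos ht, inner_smul_right, hx']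
    have h5 : ‖s‖ ^ 2 ≤ K ^ 2 := pow_le_pow_left₀ (norm_nonneg _) h4 2
    have h6 : t ^ 2 * ‖s‖ ^ 2 ≤ t ^ 2 * K ^ 2 := mul_le_mul_of_nonneg_left h5 (sq_nonneg t)
    have h7 : t * R ≤ t * inner ℝ x s := mul_le_mul_of_nonneg_left h3 ht.le
    nlinarith
  · rintro _ ⟨s, hs, rfl⟩
    have h4 : ‖s‖ ≤ K := by simpa using hK hs
    rw [mem_closedBall_zero_iff]
    simp only [norm_smul, Real.norm_eq_abs, abs_of_pos ht]
    exact (mul_le_mul_of_nonneg_left h4 ht.le).trans h1

end Pool.Agent.N225.MD
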