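import Pool.Agent.N225.MD.B

set_option autoImplicit false

open Metric Set MeasureTheory Filter
open scoped ENNReal NNReal Topology Pointwise

namespace Pool.Agent.N225.MD

variable {d : ℕ}

/-- the radial projection on the ball of radius `ρ` -/
noncomputable def P (ρ : ℝ) (x : E d) : E d := if ‖x‖ ≤ ρ then x else (ρ / ‖x‖) • x

lemma P_of_le {ρ : ℝ} {x : E d} (h : ‖x‖ ≤ ρ) : P ρ x = x := if_pos h

lemma P_of_lt {ρ : ℝ} {x : E d} (h : ρ < ‖x‖) : P ρ x = (ρ / ‖x‖) • x := if_neg (not_le.2 h)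

lemma P_norm {ρ : ℝ} (hρ : 0 ≤ ρ) (x : E d) : ‖P ρ x‖ ≤ ρ := by
  rcases le_or_gt ‖x‖ ρ with h | h
  · rwa [P_of_le h]
  · rw [P_of_lt h, norm_smul, Real.norm_eq_abs, abs_of_nonneg (by positivity),
      div_mul_cancel₀ _ (hρ.trans_lt h).ne']

/-- pushing a far point towards the ball -/
lemma P_aux {ρ : ℝ} {x y : E d} (hρ : 0 ≤ ρ) (hx : ρ < ‖x‖) (hy : inner ℝ x y ≤ ρ * ‖x‖) :
    ‖P ρ x - y‖ ^ 2 ≤ ‖x - y‖ ^ 2 := by
  have hx0 : 0 < ‖x‖ := hρ.trans_lt hx
  rw [P_of_lt hx, norm_sub_sq_real, norm_sub_sq_real, norm_smul, Real.norm_eq_abs,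
    abs_of_nonneg (by positivity), div_mul_cancel₀ _ hx0.ne', real_inner_smul_left]
  set c : ℝ := inner ℝ x y with hc
  set a : ℝ := ‖x‖ with ha
  have h1 : a ^ 2 - ρ ^ 2 - 2 * (1 - ρ / a) * c ≥ 0 := by
    have h2 : (1 - ρ / a) * c ≤ (1 - ρ / a) * (ρ * a) := by
      refine mul_le_mul_of_nonneg_left hy (sub_nonneg.2 ((div_le_one hx0).2 hx.le))
    have h3 : (1 - ρ / a) * (ρ * a) = ρ * a - ρ ^ 2 := by
      field_simp
    nlinarith [sq_nonneg (a - ρ)]
  nlinarith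

lemma P_lip {ρ : ℝ} (hρ : 0 ≤ ρ) : LipschitzWith 1 (P ρ : E d → E d) := by
  refine LipschitzWith.of_dist_le_mul fun x y => ?_
  rw [NNReal.coe_one, one_mul, dist_eq_norm, dist_eq_norm]
  refine le_of_sq_le_sq ?_ (norm_nonneg _)
  have main : ∀ x y : E d, ρ < ‖x‖ → ‖y‖ ≤ ρ → ‖P ρ x - y‖ ^ 2 ≤ ‖x - y‖ ^ 2 := by
    intro x y hx hy
    refine P_aux hρ hx ((real_inner_le_norm x y).trans ?_)
    rw [mul_comm]
    exact mul_le_mul_of_nonneg_right hy (norm_nonneg _)
  rcases le_or_gt ‖x‖ ρ with h | h <;> rcases le_or_gt ‖y‖ ρ with h' | h'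
  · rw [P_of_le h, P_of_le h']
  · rw [P_of_le h, norm_sub_rev, norm_sub_rev x y]
    exact main y x h' h
  · rw [P_of_le h']
    exact main x y h h'
  · have hx0 : 0 < ‖x‖ := hρ.trans_lt h
    have hy0 : 0 < ‖y‖ := hρ.trans_lt h'
    rw [P_of_lt h, P_of_lt h', norm_sub_sq_real, norm_sub_sq_real, norm_smul, norm_smul,
      Real.norm_eq_abs, Real.norm_eq_abs, abs_of_nonneg (by positivity),
      abs_of_nonneg (by positivity), div_mul_cancel₀ _ hx0.ne', div_mul_cancel₀ _ hy0.ne',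
      real_inner_smul_left, real_inner_smul_right]
    set c : ℝ := inner ℝ x y with hc
    have hc1 : c ≤ ‖x‖ * ‖y‖ := real_inner_le_norm x y
    set a : ℝ := ‖x‖ with ha
    set b : ℝ := ‖y‖ with hb
    have h1 : ρ ^ 2 * (1 - c / (a * b)) ≤ (a * b) * (1 - c / (a * b)) := by
      refine mul_le_mul_of_nonneg_right (by nlinarith) ?_
      rw [sub_nonneg, div_le_one (by positivity)]
      exact hc1
    have h2 : (a * b) * (1 - c / (a * b)) = a * b - c := by
      field_simp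
    have h3 : ρ / a * (ρ / b * c) = ρ ^ 2 * (c / (a * b)) := by
      field_simp
    rw [h3]
    nlinarith [sq_nonneg (a - b)]

/-- outside a larger ball the projection contracts -/
lemma P_lip' {ρ ρ' : ℝ} (hρ : 0 ≤ ρ) (h : ρ < ρ') :
    LipschitzOnWith (Real.toNNReal (ρ / ρ')) (P ρ : E d → E d) {x | ρ' ≤ ‖x‖} := by
  have hρ' : 0 < ρ' := hρ.trans_lt h
  refine LipschitzOnWith.of_dist_le_mul fun x hx y hy => ?_
  have hx' : ρ' ≤ ‖x‖ := hx
  have hy' : ρ' ≤ ‖y‖ := hy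
  have key : ∀ z : E d, ρ' ≤ ‖z‖ → P ρ z = (ρ / ρ') • P ρ' z := by
    intro z hz
    rcases hz.eq_or_lt with h1 | h1
    · rw [P_of_lt (h.trans_le hz), P_of_le h1.ge, ← h1]
    · rw [P_of_lt (h.trans_le hz), P_of_lt h1, smul_smul]
      congr 1
      field_simp
  rw [key x hx', key y hy', dist_smul₀, Real.norm_eq_abs, abs_of_nonneg (by positivity),
    Real.coe_toNNReal _ (by positivity)]
  refine mul_le_mul_of_nonneg_left ?_ (by positivity)
  simpa using (P_lip hρ'.le).dist_le_mul x y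

/-- the projection of a covering set is covering -/
lemma Covers.proj {M : Set (E d)} {R r : ℝ} {S : Set (E d)} (h : Covers M r S)
    (hM : M ⊆ closedBall 0 R) (hr : 0 ≤ r) {ρ : ℝ} (hρ : 0 ≤ ρ) (hρ2 : R ^ 2 - ρ ^ 2 ≤ r ^ 2) :
    Covers M r (P ρ '' S) := by
  refine ⟨h.cpt.image (P_lip hρ).continuous, h.conn.image _ (P_lip hρ).continuous.continuousOn,
    fun x hx => ?_⟩
  obtain ⟨s, hs, hsx⟩ := h.ex x hx
  have hxR : ‖x‖ ≤ R := by simpa using hM hx
  refine (infDist_le_dist_of_mem (mem_image_of_mem _ hs)).trans ?_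
  rcases le_or_gt ‖s‖ ρ with h1 | h1
  · rwa [P_of_le h1]
  have hs0 : 0 < ‖s‖ := hρ.trans_lt h1
  rw [dist_eq_norm, norm_sub_rev] at hsx ⊢
  refine le_of_sq_le_sq ?_ hr
  rcases le_or_gt (inner ℝ s x) (ρ * ‖s‖) with h2 | h2
  · exact (P_aux hρ h1 h2).trans (pow_le_pow_left₀ (norm_nonneg _) hsx 2)
  · rw [P_of_lt h1, norm_sub_sq_real, norm_smul, Real.norm_eq_abs,
      abs_of_nonneg (by positivity), div_mul_cancel₀ _ hs0.ne', real_inner_smul_left]
    have h3 : ρ * ρ ≤ ρ / ‖s‖ * inner ℝ s x := by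
      calc ρ * ρ = ρ / ‖s‖ * (ρ * ‖s‖) := by field_simp
        _ ≤ ρ / ‖s‖ * inner ℝ s x := mul_le_mul_of_nonneg_left h2.le (by positivity)
    have h4 : ‖x‖ ^ 2 ≤ R ^ 2 := pow_le_pow_left₀ (norm_nonneg _) hxR 2
    nlinarith

/-- the star with centre `0` -/
def star (T : Finset (E d)) : Set (E d) := ⋃ p ∈ T, segment ℝ 0 p

lemma mem_star {T : Finset (E d)} {p : E d} (hp : p ∈ T) : p ∈ star T :=
  mem_iUnion₂.2 ⟨p, hp, right_mem_segment ℝ 0 p⟩

lemma isCompact_segment (x y : E d) : IsCompact (segment ℝ x y) := by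
  rw [segment_eq_image_lineMap]
  exact isCompact_Icc.image AffineMap.lineMap_continuous

lemma isPreconnected_segment (x y : E d) : IsPreconnected (segment ℝ x y) :=
  (convex_segment x y).isPreconnected

lemma star_cpt (T : Finset (E d)) : IsCompact (star T) :=
  T.isCompact_biUnion fun p _ => isCompact_segment 0 p

lemma star_conn (T : Finset (E d)) (hT : T.Nonempty) : IsConnected (star T) := by
  obtain ⟨p, hp⟩ := hT
  refine ⟨⟨p, mem_star hp⟩, isPreconnected_of_forall 0 fun y hy => ?_⟩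
  obtain ⟨q, hq, hy⟩ := mem_iUnion₂.1 hy
  exact ⟨segment ℝ 0 q, fun z hz => mem_iUnion₂.2 ⟨q, hq, hz⟩, left_mem_segment ℝ 0 q, hy,
    isPreconnected_segment 0 q⟩

lemma star_len (T : Finset (E d)) : μH[1] (star T) ≤ ∑ p ∈ T, ENNReal.ofReal ‖p‖ := by
  refine (measure_biUnion_finset_le T _).trans (Finset.sum_le_sum fun p _ => ?_)
  rw [hausdorffMeasure_segment, edist_dist, dist_comm, dist_zero_right]

/-- a competitor of finite length -/
lemma exists_finite {R r : ℝ} (hR : 0 ≤ R) (hr : 0 < r) :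
    ∃ S : Set (E d), Covers (closedBall (0 : E d) R) r S ∧ μH[1] S < ∞ := by
  obtain ⟨t, ht, htf, hcov⟩ := (isCompact_closedBall (0 : E d) R).finite_cover_balls hr
  lift t to Finset (E d) using htf
  have hne : t.Nonempty := by
    obtain ⟨p, hp, -⟩ := mem_iUnion₂.1 (hcov (mem_closedBall_self hR))
    exact ⟨p, hp⟩
  refine ⟨star t, ⟨star_cpt t, star_conn t hne, fun x hx => ?_⟩, ?_⟩
  · obtain ⟨p, hp, hxp⟩ := mem_iUnion₂.1 (hcov hx)
    exact (infDist_le_dist_of_mem (mem_star hp)).trans (le_of_lt hxp)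
  · refine (star_len t).trans_lt ?_
    rw [ENNReal.sum_lt_top]
    exact fun p _ => ENNReal.ofReal_lt_top

/-- minimizers have finite length -/
lemma IsMin.lt_top {M : Set (E d)} {R r : ℝ} {S : Set (E d)} (h : IsMin M r S) (hR : 0 ≤ R)
    (hr : 0 < r) (hM : M ⊆ closedBall 0 R) : μH[1] S < ∞ := by
  obtain ⟨S', h1, h2⟩ := exists_finite (d := d) hR hr
  exact (h.le S' (h1.mono hM)).trans_lt h2

/-- every minimizer is in the ball of radius `√(R² - r²)` -/
lemma IsMin.localized {M : Set (E d)} {R r : ℝ} {S : Set (E d)} (h : IsMin M r S) (hr : 0 < r)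
    (hrR : r < R) (hd : 1 ≤ d) (hM : M ⊆ closedBall 0 R) (hM' : sphere 0 R ⊆ M) :
    S ⊆ closedBall 0 (√(R ^ 2 - r ^ 2)) := by
  set ρ : ℝ := √(R ^ 2 - r ^ 2) with hρ
  have hρ0 : 0 ≤ ρ := Real.sqrt_nonneg _
  have hρ2 : ρ ^ 2 = R ^ 2 - r ^ 2 := Real.sq_sqrt (by nlinarith)
  intro s hs
  rw [mem_closedBall_zero_iff]
  by_contra hcon
  push Not at hcon
  set ρ' : ℝ := (ρ + ‖s‖) / 2 with hρ'
  have h1 : ρ < ρ' := by rw [hρ']; linarith
  have h2 : ρ' < ‖s‖ := by rw [hρ']; linarith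
  have hρ'0 : 0 < ρ' := hρ0.trans_lt h1
  have hfin : μH[1] S < ∞ := h.lt_top (hr.trans hrR).le hr hM
  set A : Set (E d) := S ∩ ball 0 ρ' with hA
  set B : Set (E d) := S \ ball 0 ρ' with hB
  have hAB : μH[1] A + μH[1] B = μH[1] S := measure_inter_add_sdiff S measurableSet_ball
  have hBpos : 0 < μH[1] B := by
    have hsupp := (h.covers.mono hM').supp (hr.trans hrR).le
    obtain ⟨q, hq, hq2⟩ := hsupp.far' hd s
    have h3 : ENNReal.ofReal (min (R - r) (‖s‖ - ρ')) ≤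
        μH[1] (S ∩ ball s (min (R - r) (‖s‖ - ρ'))) :=
      conn_ball h.covers.conn.isPreconnected hs hq ((min_le_left _ _).trans hq2)
    have h4 : S ∩ ball s (min (R - r) (‖s‖ - ρ')) ⊆ B := by
      rintro y ⟨hy, hys⟩
      refine ⟨hy, fun hy2 => ?_⟩
      rw [mem_ball_zero_iff] at hy2
      have h5 : dist y s < ‖s‖ - ρ' := lt_of_lt_of_le hys (min_le_right _ _)
      have h6 : ‖s‖ ≤ ‖y‖ + dist y s := by
        rw [dist_eq_norm, norm_sub_rev]
        have := norm_add_le y (s - y)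
        rwa [add_sub_cancel] at this
      linarith
    refine lt_of_lt_of_le ?_ (h3.trans (measure_mono h4))
    rw [ENNReal.ofReal_pos]
    exact lt_min (by linarith) (by linarith)
  have hBfin : μH[1] B < ∞ := (measure_mono sdiff_subset).trans_lt hfin
  have hPA : μH[1] (P ρ '' A) ≤ μH[1] A := by
    have := (P_lip (d := d) hρ0).hausdorffMeasure_image_le zero_le_one A
    simpa using this
  have hPB : μH[1] (P ρ '' B) < μH[1] B := by
    have h7 : B ⊆ {x : E d | ρ' ≤ ‖x‖} := by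
      rintro x ⟨-, hx⟩
      rw [mem_ball_zero_iff, not_lt] at hx
      exact hx
    have h8 := ((P_lip' (d := d) hρ0 h1).mono h7).hausdorffMeasure_image_le zero_le_one
    refine h8.trans_lt ?_
    rw [ENNReal.rpow_one]
    have h9 : ((Real.toNNReal (ρ / ρ') : ℝ≥0) : ℝ≥0∞) < 1 := by
      rw [← ENNReal.coe_one, ENNReal.coe_lt_coe, ← NNReal.coe_lt_coe,
        Real.coe_toNNReal _ (by positivity), NNReal.coe_one, div_lt_one hρ'0]
      exact h1
    calc ((Real.toNNReal (ρ / ρ') : ℝ≥0) : ℝ≥0∞) * μH[1] B < 1 * μH[1] B :=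
        ENNReal.mul_lt_mul_left hBpos.ne' hBfin.ne h9
      _ = μH[1] B := one_mul _
  have hcomp := h.covers.proj (ρ := ρ) hM hr.le hρ0 (by rw [hρ2]; linarith)
  have hle := h.le _ hcomp
  have hlt : μH[1] (P ρ '' S) < μH[1] S := by
    have h10 : P ρ '' S ⊆ P ρ '' A ∪ P ρ '' B := by
      rw [← image_union, hA, hB, inter_union_sdiff]
    calc μH[1] (P ρ '' S) ≤ μH[1] (P ρ '' A) + μH[1] (P ρ '' B) :=
        (measure_mono h10).trans (measure_union_le _ _)
      _ < μH[1] A + μH[1] B := ENNReal.add_lt_add_of_le_of_lt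
          ((hPA.trans (measure_mono inter_subset_left)).trans_lt hfin).ne hPA hPB
      _ = μH[1] S := hAB
  exact absurd hle (not_le.2 hlt)

/-- for `R² ≤ 2 r²` the ball and the sphere have the same minimizers -/
lemma isMin_iff {R r : ℝ} {S : Set (E d)} (hr : 0 < r) (hrR : r < R) (hd : 1 ≤ d)
    (h2 : R ^ 2 ≤ 2 * r ^ 2) :
    IsMin (closedBall (0 : E d) R) r S ↔ IsMin (sphere (0 : E d) R) r S := by
  have hR : 0 < R := hr.trans hrR
  set ρ : ℝ := √(R ^ 2 - r ^ 2) with hρ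
  have hρ0 : 0 ≤ ρ := Real.sqrt_nonneg _
  have hρ2 : ρ ^ 2 = R ^ 2 - r ^ 2 := Real.sq_sqrt (by nlinarith)
  have hρr : ρ ≤ r := by
    refine le_of_sq_le_sq ?_ hr.le
    rw [hρ2]
    linarith
  constructor
  · intro h
    refine ⟨h.covers.mono sphere_subset_closedBall, fun S' h' => ?_⟩
    have h3 := h'.proj (ρ := ρ) sphere_subset_closedBall hr.le hρ0 (by rw [hρ2]; linarith)
    have h4 := h3.ball hR hd (by
      rintro _ ⟨x, -, rfl⟩
      rw [mem_closedBall_zero_iff]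
      exact (P_norm hρ0 x).trans hρr)
    refine (h.le _ h4).trans ?_
    have := (P_lip (d := d) hρ0).hausdorffMeasure_image_le zero_le_one S'
    simpa using this
  · intro h
    refine ⟨h.covers.ball hR hd ?_, fun S' h' => h.le S' (h'.mono sphere_subset_closedBall)⟩
    exact (h.localized hr hrR hd sphere_subset_closedBall le_rfl).trans
      (closedBall_subset_closedBall hρr)

end Pool.Agent.N225.MD
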