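import Pool.Agent.N225.MD.C

set_option autoImplicit false

open Metric Set MeasureTheory Filter
open scoped ENNReal NNReal Topology Pointwise

namespace Pool.Agent.N225.MD

variable {d : ℕ}

lemma le_len {R r : ℝ} (hR : 0 ≤ R) (hr : r < R) :
    ENNReal.ofReal (R - r) * hullLen d ≤ len (sphere (0 : E d) R) r :=
  le_iInf₂ fun _ h => h.hulls hR hr

lemma len_mono {M N : Set (E d)} {r : ℝ} (hN : N ⊆ M) : len N r ≤ len M r :=
  le_iInf₂ fun S h => iInf₂_le S (h.mono hN)

lemma len_le {M : Set (E d)} {r : ℝ} {S : Set (E d)} (h : Covers M r S) : len M r ≤ μH[1] S :=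
  iInf₂_le S h

/-- near `r = R` the least length is asymptotic to `(R - r) hullLen d` -/
theorem tendsto_len {R : ℝ} (hR : 0 < R) (hd : 1 ≤ d) :
    Tendsto (fun r => len (closedBall (0 : E d) R) r / ENNReal.ofReal (R - r)) (𝓝[<] R)
      (𝓝 (hullLen d)) := by
  have hlow : ∀ r < R, hullLen d ≤ len (closedBall (0 : E d) R) r / ENNReal.ofReal (R - r) := by
    intro r hr
    rw [ENNReal.le_div_iff_mul_le (Or.inl (by rw [ne_eq, ENNReal.ofReal_eq_zero]; linarith))
      (Or.inl ENNReal.ofReal_ne_top), mul_comm]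
    exact (le_len hR.le hr).trans (len_mono sphere_subset_closedBall)
  refine tendsto_order.2 ⟨fun a ha => ?_, fun a ha => ?_⟩
  · filter_upwards [self_mem_nhdsWithin] with r hr
    exact ha.trans_le (hlow r hr)
  · obtain ⟨S, hSa⟩ := iInf_lt_iff.1 ha
    obtain ⟨hS, hSa⟩ := iInf_lt_iff.1 hSa
    obtain ⟨b, hSb, hba⟩ := exists_between hSa
    have hb : b ≠ ∞ := (hba.trans_le le_top).ne
    have hm : μH[1] S ≠ ∞ := (hSb.trans_le le_top).ne
    set m : ℝ := (μH[1] S).toReal with hmdef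
    have hm0 : 0 ≤ m := ENNReal.toReal_nonneg
    have hmb : m < b.toReal := (ENNReal.toReal_lt_toReal hm hb).2 hSb
    set η : ℝ := (b.toReal - m) / (m + 1) with hη
    have hη0 : 0 < η := div_pos (by linarith) (by linarith)
    have hηm : (1 + η) * m ≤ b.toReal := by
      have h1 : η * (m + 1) = b.toReal - m := by rw [hη]; field_simp
      nlinarith
    obtain ⟨K, hK⟩ := hS.cpt.isBounded.subset_closedBall (0 : E d)
    have e1 : ∀ᶠ r in 𝓝[<] R, (1 + η) * (R - r) * K < r :=
      nhdsWithin_le_nhds (ContinuousAt.eventually_lt (by fun_prop) (by fun_prop) (by simpa using hR))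
    have e2 : ∀ᶠ r in 𝓝[<] R, R + r < 2 * R * (1 + η) - (1 + η) ^ 2 * (R - r) * K ^ 2 :=
      nhdsWithin_le_nhds (ContinuousAt.eventually_lt (by fun_prop) (by fun_prop) (by
        simp only [sub_self, mul_zero, zero_mul, sub_zero]
        nlinarith))
    have e3 : ∀ᶠ r in 𝓝[<] R, (0 : ℝ) < r :=
      nhdsWithin_le_nhds (ContinuousAt.eventually_lt (by fun_prop) (by fun_prop) hR)
    filter_upwards [e1, e2, e3, self_mem_nhdsWithin] with r h1 h2 h3 h4
    have h4' : 0 < R - r := sub_pos.2 h4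
    have hcov := hS.covers (r := r) (t := (1 + η) * (R - r)) hR h3.le hd (by positivity) hK h1.le (by
      have h5 : (R - r) * (R + r) ≤
          (R - r) * (2 * R * (1 + η) - (1 + η) ^ 2 * (R - r) * K ^ 2) :=
        mul_le_mul_of_nonneg_left h2.le h4'.le
      nlinarith)
    have h6 : len (closedBall (0 : E d) R) r ≤ ENNReal.ofReal ((1 + η) * m) * ENNReal.ofReal (R - r) := by
      refine (len_le hcov).trans ?_
      rw [smul_length (by positivity), ← ENNReal.ofReal_toReal hm, ← hmdef,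
        ← ENNReal.ofReal_mul (by positivity), ← ENNReal.ofReal_mul (by positivity)]
      refine ENNReal.ofReal_le_ofReal (le_of_eq (by ring))
    refine lt_of_le_of_lt (ENNReal.div_le_of_le_mul h6) ?_
    refine lt_of_le_of_lt (ENNReal.ofReal_le_ofReal hηm) ?_
    rwa [ENNReal.ofReal_toReal hb]

lemma two_le_hullLen (hd : 1 ≤ d) : 2 ≤ hullLen d := by
  refine le_iInf₂ fun S h => ?_
  have := h.supp.two h.conn.isPreconnected hd
  simpa using this

lemma dim_le_hullLen (hd : 1 ≤ d) : ENNReal.ofReal (((d : ℝ) + 1) / 2) ≤ hullLen d := by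
  refine le_iInf₂ fun S h => ?_
  have := h.supp.dim one_pos h.conn.isPreconnected h.cpt hd
  rwa [mul_one_div] at this

lemma exists_coord (hd : 1 ≤ d) (u : E d) (hu : ‖u‖ = 1) : ∃ i, 1 ≤ √(d : ℝ) * |u i| := by
  by_contra hcon
  push Not at hcon
  have : Nonempty (Fin d) := ⟨⟨0, hd⟩⟩
  have h1 : ∑ i, (√(d : ℝ) * |u i|) ^ 2 < ∑ _i : Fin d, (1 : ℝ) := by
    refine Finset.sum_lt_sum_of_nonempty Finset.univ_nonempty fun i _ => ?_
    have h2 := hcon i
    have h3 : 0 ≤ √(d : ℝ) * |u i| := by positivity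
    nlinarith
  have h4 : ∑ i, (√(d : ℝ) * |u i|) ^ 2 = d * ‖u‖ ^ 2 := by
    rw [EuclideanSpace.norm_sq_eq, Finset.mul_sum]
    refine Finset.sum_congr rfl fun i _ => ?_
    rw [mul_pow, Real.sq_sqrt (Nat.cast_nonneg d), sq_abs, Real.norm_eq_abs, sq_abs]
  rw [h4, hu] at h1
  simp at h1

lemma hullLen_le (hd : 1 ≤ d) : hullLen d ≤ ENNReal.ofReal (2 * d * √(d : ℝ)) := by
  classical
  set f : Fin d × Bool → E d := fun ib =>
    (if ib.2 then √(d : ℝ) else -√(d : ℝ)) • EuclideanSpace.single ib.1 (1 : ℝ) with hf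
  set T : Finset (E d) := Finset.univ.image f with hT
  have hne : T.Nonempty := ⟨f (⟨0, hd⟩, true), Finset.mem_image_of_mem _ (Finset.mem_univ _)⟩
  have hsupp : Supp 1 (star T) := by
    intro u hu
    obtain ⟨i, hi⟩ := exists_coord hd u hu
    have hin : ∀ b, inner ℝ u (f (i, b)) = (if b then √(d : ℝ) else -√(d : ℝ)) * u i := fun b => by
      simp only [hf]
      rw [real_inner_smul_right, real_inner_comm, EuclideanSpace.inner_single_left]
      simp
    rcases le_total 0 (u i) with h0 | h0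
    · refine ⟨f (i, true), mem_star (Finset.mem_image_of_mem _ (Finset.mem_univ _)), ?_⟩
      rw [hin]
      simpa [abs_of_nonneg h0] using hi
    · refine ⟨f (i, false), mem_star (Finset.mem_image_of_mem _ (Finset.mem_univ _)), ?_⟩
      rw [hin]
      simpa [abs_of_nonpos h0] using hi
  have hH : Hulls (star T) :=
    ⟨star_cpt T, star_conn T hne, hsupp.hull (star_cpt T) (star_conn T hne).nonempty⟩
  refine (iInf₂_le _ hH).trans ((star_len T).trans ?_)
  have h1 : ∀ p ∈ T, ENNReal.ofReal ‖p‖ ≤ ENNReal.ofReal √(d : ℝ) := by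
    intro p hp
    obtain ⟨⟨i, b⟩, -, rfl⟩ := Finset.mem_image.1 hp
    refine ENNReal.ofReal_le_ofReal ?_
    simp only [hf]
    rw [norm_smul, EuclideanSpace.norm_single, norm_one, mul_one]
    cases b <;> simp [abs_of_nonneg]
  refine (Finset.sum_le_card_nsmul T _ _ h1).trans ?_
  rw [nsmul_eq_mul, ENNReal.ofReal_mul (by positivity)]
  gcongr
  have h2 : T.card ≤ 2 * d := by
    refine Finset.card_image_le.trans ?_
    rw [Finset.card_univ, Fintype.card_prod, Fintype.card_fin, Fintype.card_bool, mul_comm]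
  rw [show (2 * (d : ℝ)) = ((2 * d : ℕ) : ℝ) by push_cast; ring, ENNReal.ofReal_natCast]
  exact_mod_cast h2

end Pool.Agent.N225.MD
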