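import Pool.Agent.N225.MD.D

set_option autoImplicit false

open Metric Set MeasureTheory Filter
open scoped ENNReal NNReal Topology Pointwise

namespace Pool.Agent.N225.MD

variable {d : ℕ}

/-- separated finite sets -/
def Sep (ρ : ℝ) (A : Set (E d)) (T : Finset (E d)) : Prop :=
  (∀ p ∈ T, p ∈ A) ∧ ∀ p ∈ T, ∀ q ∈ T, p ≠ q → ρ ≤ dist p q

lemma exists_maximal {ρ : ℝ} (hρ : 0 < ρ) (A : Set (E d)) (K : ℕ)
    (hK : ∀ T : Finset (E d), Sep ρ A T → T.card ≤ K) :
    ∃ T : Finset (E d), Sep ρ A T ∧ ∀ x ∈ A, ∃ p ∈ T, dist x p < ρ := by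
  classical
  set N : Set ℕ := {n | ∃ T : Finset (E d), Sep ρ A T ∧ T.card = n} with hN
  have h0 : N.Nonempty := ⟨0, ∅, ⟨by simp, by simp⟩, rfl⟩
  have hb : BddAbove N := ⟨K, by rintro n ⟨T, hT, rfl⟩; exact hK T hT⟩
  obtain ⟨T, hT, hTc⟩ := Nat.sSup_mem h0 hb
  refine ⟨T, hT, fun x hx => ?_⟩
  by_contra hcon
  push Not at hcon
  have hxT : x ∉ T := fun hxT => by
    have := hcon x hxT
    rw [dist_self] at this
    linarith
  have h1 : Sep ρ A (insert x T) := by
    refine ⟨fun p hp => ?_, fun p hp q hq hpq => ?_⟩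
    · rcases Finset.mem_insert.1 hp with rfl | hp
      · exact hx
      · exact hT.1 p hp
    · simp only [Finset.mem_insert] at hp hq
      rcases hp with rfl | hp <;> rcases hq with rfl | hq
      · exact absurd rfl hpq
      · exact hcon q hq
      · rw [dist_comm]; exact hcon p hp
      · exact hT.2 p hp q hq hpq
  have h2 : T.card + 1 ∈ N := ⟨_, h1, Finset.card_insert_of_notMem hxT⟩
  have h3 := le_csSup hb h2
  omega

lemma vol_one_pos : 0 < (volume (ball (0 : E d) 1)) := measure_ball_pos _ _ one_pos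

lemma vol_one_lt : (volume (ball (0 : E d) 1)) < ∞ := measure_ball_lt_top

/-- packing bound in the ball -/
lemma card_le {ρ R : ℝ} (hρ : 0 < ρ) (hR : 0 ≤ R) {T : Finset (E d)}
    (hT : Sep ρ (closedBall (0 : E d) R) T) :
    (T.card : ℝ) * (ρ / 2) ^ d ≤ (R + ρ / 2) ^ d := by
  have h1 : ∑ p ∈ T, volume (ball p (ρ / 2)) ≤ volume (ball (0 : E d) (R + ρ / 2)) := by
    rw [← measure_biUnion_finset]
    · refine measure_mono (iUnion₂_subset fun p hp => ball_subset_ball' ?_)
      have := hT.1 p hp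
      rw [mem_closedBall] at this
      linarith
    · intro p hp q hq hpq
      refine ball_disjoint_ball ?_
      have := hT.2 p hp q hq hpq
      linarith
    · intro p _
      exact measurableSet_ball
  rw [Measure.addHaar_ball_of_pos _ _ (by positivity), finrank_euclideanSpace_fin,
    Finset.sum_congr rfl (fun p _ => by
      rw [Measure.addHaar_ball_of_pos _ _ (by positivity), finrank_euclideanSpace_fin]),
    Finset.sum_const, nsmul_eq_mul, ← mul_assoc,
    ENNReal.mul_le_mul_iff_left vol_one_pos.ne' vol_one_lt.ne, ← ENNReal.ofReal_natCast,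
    ← ENNReal.ofReal_mul (by positivity), ENNReal.ofReal_le_ofReal_iff (by positivity)] at h1
  exact h1

/-- covering bound for the ball -/
lemma le_card {a R : ℝ} (ha : 0 ≤ a) (hR : 0 < R) {T : Finset (E d)}
    (hT : ∀ x ∈ closedBall (0 : E d) R, ∃ p ∈ T, dist x p ≤ a) :
    R ^ d ≤ (T.card : ℝ) * a ^ d := by
  have h1 : volume (closedBall (0 : E d) R) ≤ ∑ p ∈ T, volume (closedBall p a) := by
    refine (measure_mono ?_).trans (measure_biUnion_finset_le T _)
    intro x hx
    obtain ⟨p, hp, hxp⟩ := hT x hx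
    exact mem_iUnion₂.2 ⟨p, hp, hxp⟩
  rw [Measure.addHaar_closedBall _ _ hR.le, finrank_euclideanSpace_fin,
    Finset.sum_congr rfl (fun p _ => by
      rw [Measure.addHaar_closedBall _ _ ha, finrank_euclideanSpace_fin]),
    Finset.sum_const, nsmul_eq_mul, ← mul_assoc,
    ENNReal.mul_le_mul_iff_left vol_one_pos.ne' vol_one_lt.ne, ← ENNReal.ofReal_natCast,
    ← ENNReal.ofReal_mul (by positivity), ENNReal.ofReal_le_ofReal_iff (by positivity)] at h1
  exact h1

/-- lower bound -/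
lemma Covers.lower {R r ρ : ℝ} {S : Set (E d)} (h : Covers (closedBall (0 : E d) R) r S)
    (hR : 0 < R) (hr : 0 ≤ r) (hd : 1 ≤ d) (hρ : 0 < ρ) (hρ2 : ρ ≤ 2 * (R - r)) :
    ENNReal.ofReal (ρ / 2 * (R / (ρ + r)) ^ d) ≤ μH[1] S := by
  rcases eq_or_ne (μH[1] S) ∞ with htop | htop
  · rw [htop]; exact le_top
  have hsupp := (h.mono sphere_subset_closedBall).supp hR.le
  have hpack : ∀ T : Finset (E d), Sep ρ S T → T.card * (ρ / 2) ≤ (μH[1] S).toReal := by
    intro T hT
    have := packing h.conn.isPreconnected h.cpt T hT.1 hT.2 fun p _ => by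
      obtain ⟨q, hq, hq2⟩ := hsupp.far' hd p
      exact ⟨q, hq, by linarith⟩
    exact (ENNReal.ofReal_le_iff_le_toReal htop).1 this
  obtain ⟨T, hT, hTm⟩ := exists_maximal hρ S ⌊(μH[1] S).toReal / (ρ / 2)⌋₊ fun T hT => by
    refine Nat.le_floor ?_
    rw [le_div_iff₀ (by positivity)]
    exact hpack T hT
  have h1 := le_card (T := T) (a := ρ + r) (by positivity) hR fun x hx => by
    obtain ⟨s, hs, hxs⟩ := h.ex x hx
    obtain ⟨p, hp, hsp⟩ := hTm s hs
    exact ⟨p, hp, by linarith [dist_triangle x s p]⟩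
  rw [ENNReal.ofReal_le_iff_le_toReal htop]
  refine le_trans ?_ (hpack T hT)
  rw [mul_comm]
  refine mul_le_mul_of_nonneg_right ?_ (by positivity)
  rw [div_pow, div_le_iff₀ (by positivity)]
  exact h1

/-- a tree through a linked finite set -/
lemma tree {δ : ℝ} (hδ : 0 ≤ δ) (T : Finset (E d)) (hne : T.Nonempty)
    (hlink : ∀ A ⊆ T, A.Nonempty → A ≠ T → ∃ p ∈ A, ∃ q ∈ T, q ∉ A ∧ dist p q ≤ δ) :
    ∃ S : Set (E d), IsCompact S ∧ IsConnected S ∧ (∀ p ∈ T, p ∈ S) ∧
      μH[1] S ≤ ENNReal.ofReal (T.card * δ) := by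
  classical
  have key : ∀ n : ℕ, n + 1 ≤ T.card → ∃ A ⊆ T, A.card = n + 1 ∧ ∃ S : Set (E d), IsCompact S ∧
      IsConnected S ∧ (∀ p ∈ A, p ∈ S) ∧ μH[1] S ≤ ENNReal.ofReal (n * δ) := by
    intro n
    induction n with
    | zero =>
      intro _
      obtain ⟨p, hp⟩ := hne
      refine ⟨{p}, by simpa using hp, by simp, segment ℝ p p, isCompact_segment p p,
        ⟨⟨p, left_mem_segment ℝ p p⟩, isPreconnected_segment p p⟩, ?_, ?_⟩
      · intro q hq
        rw [Finset.mem_singleton.1 hq]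
        exact left_mem_segment ℝ p p
      · rw [hausdorffMeasure_segment, edist_self]
        exact bot_le
    | succ n ih =>
      intro hn
      obtain ⟨A, hAT, hAc, S, hS1, hS2, hS3, hS4⟩ := ih (by omega)
      obtain ⟨p, hp, q, hq, hqA, hpq⟩ := hlink A hAT (Finset.card_pos.1 (by omega)) (by
        rintro rfl
        omega)
      refine ⟨insert q A, Finset.insert_subset hq hAT, by
        rw [Finset.card_insert_of_notMem hqA, hAc], S ∪ segment ℝ p q,
        hS1.union (isCompact_segment p q), ?_, ?_, ?_⟩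
      · exact hS2.union ⟨p, hS3 p hp, left_mem_segment ℝ p q⟩
          ⟨⟨p, left_mem_segment ℝ p q⟩, isPreconnected_segment p q⟩
      · intro x hx
        rcases Finset.mem_insert.1 hx with rfl | hx
        · exact Or.inr (right_mem_segment ℝ p x)
        · exact Or.inl (hS3 x hx)
      · refine (measure_union_le _ _).trans ?_
        rw [hausdorffMeasure_segment, edist_dist]
        refine (add_le_add hS4 (ENNReal.ofReal_le_ofReal hpq)).trans ?_
        rw [← ENNReal.ofReal_add (by positivity) hδ]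
        refine ENNReal.ofReal_le_ofReal (le_of_eq ?_)
        push_cast
        ring
  have hpos : 0 < T.card := Finset.card_pos.2 hne
  obtain ⟨A, hAT, hAc, S, hS1, hS2, hS3, hS4⟩ := key (T.card - 1) (by omega)
  have hA : A = T := Finset.eq_of_subset_of_card_le hAT (by omega)
  refine ⟨S, hS1, hS2, fun p hp => hS3 p (hA ▸ hp), hS4.trans (ENNReal.ofReal_le_ofReal ?_)⟩
  refine mul_le_mul_of_nonneg_right ?_ hδ
  exact_mod_cast Nat.sub_le _ _

/-- upper bound -/
lemma len_upper {R r : ℝ} (hR : 0 ≤ R) (hr : 0 < r) :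
    len (closedBall (0 : E d) R) r ≤ ENNReal.ofReal (2 * r * ((2 * R + r) / r) ^ d) := by
  classical
  have hc : ∀ T : Finset (E d), Sep r (closedBall (0 : E d) R) T →
      (T.card : ℝ) ≤ ((2 * R + r) / r) ^ d := fun T hT => by
    have h1 := card_le hr hR hT
    have h2 : (2 * R + r) / r = (R + r / 2) / (r / 2) := by field_simp
    rw [h2, div_pow, le_div_iff₀ (by positivity)]
    exact h1
  obtain ⟨T, hT, hTm⟩ := exists_maximal hr (closedBall (0 : E d) R) ⌊((2 * R + r) / r) ^ d⌋₊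
    fun T hT => Nat.le_floor (hc T hT)
  have hne : T.Nonempty := by
    obtain ⟨p, hp, -⟩ := hTm 0 (mem_closedBall_self hR)
    exact ⟨p, hp⟩
  obtain ⟨S, hS1, hS2, hS3, hS4⟩ := tree (δ := 2 * r) (by positivity) T hne (by
    intro A hA hAne hAT
    have hconn : IsPreconnected (closedBall (0 : E d) R) :=
      (convex_closedBall 0 R).isPreconnected
    rw [isPreconnected_closed_iff] at hconn
    have hcl : ∀ B : Finset (E d), IsClosed (⋃ p ∈ B, closedBall p r) := fun B =>
      B.finite_toSet.isClosed_biUnion fun p _ => isClosed_closedBall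
    have hAne2 : (T \ A).Nonempty := by
      rw [Finset.sdiff_nonempty]
      exact fun h => hAT (Finset.Subset.antisymm hA h)
    obtain ⟨a, ha⟩ := hAne
    obtain ⟨b, hb⟩ := hAne2
    obtain ⟨x, hx, hx1, hx2⟩ := hconn (⋃ p ∈ A, closedBall p r) (⋃ p ∈ T \ A, closedBall p r)
      (hcl A) (hcl _) (by
        intro x hx
        obtain ⟨p, hp, hxp⟩ := hTm x hx
        by_cases hpA : p ∈ A
        · exact Or.inl (mem_iUnion₂.2 ⟨p, hpA, hxp.le⟩)
        · exact Or.inr (mem_iUnion₂.2 ⟨p, Finset.mem_sdiff.2 ⟨hp, hpA⟩, hxp.le⟩))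
      ⟨a, hT.1 a (hA ha), mem_iUnion₂.2 ⟨a, ha, mem_closedBall_self hr.le⟩⟩
      ⟨b, hT.1 b (Finset.mem_sdiff.1 hb).1, mem_iUnion₂.2 ⟨b, hb, mem_closedBall_self hr.le⟩⟩
    obtain ⟨p, hp, hxp⟩ := mem_iUnion₂.1 hx1
    obtain ⟨q, hq, hxq⟩ := mem_iUnion₂.1 hx2
    refine ⟨p, hp, q, (Finset.mem_sdiff.1 hq).1, (Finset.mem_sdiff.1 hq).2, ?_⟩
    rw [mem_closedBall] at hxp hxq
    have := dist_triangle_left p q x
    linarith)
  have hcov : Covers (closedBall (0 : E d) R) r S := ⟨hS1, hS2, fun x hx => by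
    obtain ⟨p, hp, hxp⟩ := hTm x hx
    exact (infDist_le_dist_of_mem (hS3 p hp)).trans hxp.le⟩
  refine (len_le hcov).trans (hS4.trans (ENNReal.ofReal_le_ofReal ?_))
  rw [mul_comm]
  exact mul_le_mul_of_nonneg_left (hc T hT) (by positivity)

end Pool.Agent.N225.MD
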