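import Pool.Agent.N225.MD.F

set_option autoImplicit false

open Metric Set MeasureTheory Filter
open scoped ENNReal NNReal Topology Pointwise

namespace Pool.Agent.N225.MD

variable {d : ℕ}

lemma IsMin.eq_len {M : Set (E d)} {r : ℝ} {S : Set (E d)} (h : IsMin M r S) :
    μH[1] S = len M r :=
  le_antisymm (le_iInf₂ fun S' h' => h.le S' h') (len_le h.covers)

/-- a minimizer is contained in the ball whose radius is the least length -/
lemma IsMin.norm_le {M : Set (E d)} {R r : ℝ} {S : Set (E d)} (h : IsMin M r S) (hR : 0 ≤ R)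
    (hrR : r ≤ R) (hM' : sphere 0 R ⊆ M) {s : E d} (hs : s ∈ S) :
    ENNReal.ofReal ‖s‖ ≤ len M r := by
  rw [← h.eq_len]
  rcases eq_or_ne (μH[1] S) ∞ with htop | htop
  · rw [htop]; exact le_top
  have h0 : (0 : E d) ∈ convexHull ℝ S :=
    ((h.covers.mono hM').supp hR).hull h.covers.cpt h.covers.conn.nonempty
      (mem_closedBall_self (by linarith))
  have h1 : S ⊆ closedBall s (μH[1] S).toReal := by
    intro q hq
    rw [mem_closedBall, ← ENNReal.ofReal_le_iff_le_toReal htop]
    exact (conn_ball h.covers.conn.isPreconnected hs hq le_rfl).trans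
      (measure_mono inter_subset_left)
  have h2 := convexHull_min h1 (convex_closedBall s _) h0
  rw [mem_closedBall, dist_comm, dist_zero_right] at h2
  rwa [ENNReal.ofReal_le_iff_le_toReal htop]

/-- the rescaled minimizer is a competitor for the hull problem -/
lemma Covers.hulls' {R r : ℝ} {S : Set (E d)} (h : Covers (sphere (0 : E d) R) r S) (hR : 0 ≤ R)
    (hr : r < R) : Hulls ((R - r)⁻¹ • S) := by
  refine ⟨?_, smul_conn h.conn _, ?_⟩
  · rw [← image_smul]
    exact h.cpt.image (continuous_const_smul _)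
  · rw [convexHull_smul]
    have h2 := (h.supp hR).hull h.cpt h.conn.nonempty
    have h3 : closedBall (0 : E d) 1 = (R - r)⁻¹ • closedBall (0 : E d) (R - r) := by
      rw [smul_smul_closedBall (inv_pos.2 (sub_pos.2 hr)), inv_mul_cancel₀ (sub_pos.2 hr).ne']
    rw [h3]
    exact smul_set_mono h2

lemma IsMin.scaled {R r : ℝ} {S : Set (E d)} (h : IsMin (closedBall (0 : E d) R) r S)
    (hr : r < R) :
    μH[1] ((R - r)⁻¹ • S) = len (closedBall (0 : E d) R) r / ENNReal.ofReal (R - r) := by
  rw [smul_length (inv_pos.2 (sub_pos.2 hr)), h.eq_len, ENNReal.ofReal_inv_of_pos (sub_pos.2 hr),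
    div_eq_mul_inv, mul_comm]

end Pool.Agent.N225.MD
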