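import Pool.Agent.N225.MD.G

set_option autoImplicit false

open Metric Set MeasureTheory Filter
open scoped ENNReal NNReal Topology Pointwise

namespace Pool.Agent.N225.MD

/-- the point with coordinates `x`, `y` -/
noncomputable def pt (x y : ℝ) : E 2 := !₂[x, y]

@[simp] lemma pt_zero (x y : ℝ) : (pt x y) 0 = x := rfl

@[simp] lemma pt_one (x y : ℝ) : (pt x y) 1 = y := rfl

lemma pt_eta (z : E 2) : pt (z 0) (z 1) = z := by
  ext i
  fin_cases i <;> rfl

lemma dist_sq (z w : E 2) : dist z w ^ 2 = (z 0 - w 0) ^ 2 + (z 1 - w 1) ^ 2 := by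
  rw [EuclideanSpace.dist_eq, Fin.sum_univ_two, Real.sq_sqrt (by positivity), Real.dist_eq,
    Real.dist_eq, sq_abs, sq_abs]

lemma norm_sq (z : E 2) : ‖z‖ ^ 2 = (z 0) ^ 2 + (z 1) ^ 2 := by
  rw [← dist_zero_right, dist_sq]
  simp

lemma inner_pt (u : E 2) (x y : ℝ) : inner ℝ u (pt x y) = u 0 * x + u 1 * y := by
  rw [PiLp.inner_apply, Fin.sum_univ_two]
  simp [mul_comm]

/-- the arc -/
noncomputable def arc : Set (E 2) := (fun θ : ℝ => pt (Real.cos θ) (Real.sin θ)) '' Icc 0 Real.pi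

lemma arc_lip : LipschitzWith 1 fun θ : ℝ => pt (Real.cos θ) (Real.sin θ) := by
  refine LipschitzWith.of_dist_le_mul fun θ φ => ?_
  rw [NNReal.coe_one, one_mul]
  refine le_of_sq_le_sq ?_ dist_nonneg
  rw [dist_sq, Real.dist_eq, sq_abs]
  simp only [pt_zero, pt_one]
  have h1 := Real.one_sub_sq_div_two_le_cos (x := θ - φ)
  rw [Real.cos_sub] at h1
  nlinarith [Real.sin_sq_add_cos_sq θ, Real.sin_sq_add_cos_sq φ]

/-- the horseshoe -/
noncomputable def shoe : Set (E 2) :=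
  arc ∪ segment ℝ (pt 1 0) (pt 1 (-1)) ∪ segment ℝ (pt (-1) 0) (pt (-1) (-1))

lemma right_mem_arc : pt 1 0 ∈ arc := ⟨0, ⟨le_rfl, Real.pi_pos.le⟩, by simp⟩

lemma left_mem_arc : pt (-1) 0 ∈ arc := ⟨Real.pi, ⟨Real.pi_pos.le, le_rfl⟩, by simp⟩

lemma arc_cpt : IsCompact arc := isCompact_Icc.image arc_lip.continuous

lemma arc_conn : IsConnected arc :=
  (isConnected_Icc Real.pi_pos.le).image _ arc_lip.continuous.continuousOn

lemma seg_conn {d : ℕ} (x y : E d) : IsConnected (segment ℝ x y) :=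
  ⟨⟨x, left_mem_segment ℝ x y⟩, isPreconnected_segment x y⟩

lemma shoe_cpt : IsCompact shoe :=
  (arc_cpt.union (isCompact_segment _ _)).union (isCompact_segment _ _)

lemma shoe_conn : IsConnected shoe := by
  refine IsConnected.union ⟨pt (-1) 0, Or.inl left_mem_arc, left_mem_segment ℝ _ _⟩
    (IsConnected.union ⟨pt 1 0, right_mem_arc, left_mem_segment ℝ _ _⟩ arc_conn (seg_conn _ _))
    (seg_conn _ _)

lemma shoe_supp : Supp 1 shoe := by
  intro u hu
  have h1 : (u 0) ^ 2 + (u 1) ^ 2 = 1 := by rw [← norm_sq, hu]; norm_num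
  rcases le_total 0 (u 1) with h0 | h0
  · refine ⟨u, Or.inl (Or.inl ⟨Real.arccos (u 0), ⟨Real.arccos_nonneg _, Real.arccos_le_pi _⟩, ?_⟩),
      ?_⟩
    · simp only
      rw [Real.cos_arccos (by nlinarith) (by nlinarith), Real.sin_arccos,
        show 1 - (u 0) ^ 2 = (u 1) ^ 2 by linarith, Real.sqrt_sq h0, pt_eta]
    · rw [real_inner_self_eq_norm_sq, hu]; norm_num
  · rcases le_total 0 (u 0) with h2 | h2
    · refine ⟨pt 1 (-1), Or.inl (Or.inr (right_mem_segment ℝ _ _)), ?_⟩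
      rw [inner_pt]
      nlinarith
    · refine ⟨pt (-1) (-1), Or.inr (right_mem_segment ℝ _ _), ?_⟩
      rw [inner_pt]
      nlinarith

lemma edist_pt_le {x y x' y' t : ℝ} (ht : 0 ≤ t) (h : (x - x') ^ 2 + (y - y') ^ 2 ≤ t ^ 2) :
    edist (pt x y) (pt x' y') ≤ ENNReal.ofReal t := by
  rw [edist_dist]
  refine ENNReal.ofReal_le_ofReal (le_of_sq_le_sq ?_ ht)
  rw [dist_sq]
  exact h

lemma shoe_len : μH[1] shoe ≤ ENNReal.ofReal (Real.pi + 2) := by
  have h1 : μH[1] arc ≤ ENNReal.ofReal Real.pi := by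
    have := arc_lip.hausdorffMeasure_image_le zero_le_one (Icc 0 Real.pi)
    rw [hausdorffMeasure_real, Real.volume_Icc, sub_zero] at this
    rw [arc]
    simpa using this
  have h2 : μH[1] (segment ℝ (pt 1 0) (pt 1 (-1))) ≤ ENNReal.ofReal 1 := by
    rw [hausdorffMeasure_segment]
    exact edist_pt_le zero_le_one (by norm_num)
  have h3 : μH[1] (segment ℝ (pt (-1) 0) (pt (-1) (-1))) ≤ ENNReal.ofReal 1 := by
    rw [hausdorffMeasure_segment]
    exact edist_pt_le zero_le_one (by norm_num)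
  calc μH[1] shoe ≤ ENNReal.ofReal Real.pi + ENNReal.ofReal 1 + ENNReal.ofReal 1 :=
        (measure_union_le _ _).trans (add_le_add ((measure_union_le _ _).trans
          (add_le_add h1 h2)) h3)
    _ = ENNReal.ofReal (Real.pi + 2) := by
        rw [← ENNReal.ofReal_add Real.pi_pos.le zero_le_one,
          ← ENNReal.ofReal_add (by positivity) zero_le_one]
        congr 1
        ring

lemma hullLen_two : hullLen 2 ≤ ENNReal.ofReal (Real.pi + 2) :=
  (iInf₂_le _ ⟨shoe_cpt, shoe_conn, shoe_supp.hull shoe_cpt shoe_conn.nonempty⟩).trans shoe_len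

variable {d : ℕ}

lemma tendsto_len_sphere {R : ℝ} (hR : 0 < R) (hd : 1 ≤ d) :
    Tendsto (fun r => len (sphere (0 : E d) R) r / ENNReal.ofReal (R - r)) (𝓝[<] R)
      (𝓝 (hullLen d)) := by
  refine tendsto_of_tendsto_of_tendsto_of_le_of_le' tendsto_const_nhds (tendsto_len hR hd) ?_ ?_
  · filter_upwards [self_mem_nhdsWithin] with r hr
    have hr' : r < R := hr
    rw [ENNReal.le_div_iff_mul_le (Or.inl (by rw [ne_eq, ENNReal.ofReal_eq_zero]; linarith))
      (Or.inl ENNReal.ofReal_ne_top), mul_comm]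
    exact le_len hR.le hr
  · filter_upwards with r
    exact ENNReal.div_le_div_right (len_mono sphere_subset_closedBall) _

lemma IsMin.scaled' {M : Set (E d)} {R r : ℝ} {S : Set (E d)} (h : IsMin M r S) (hr : r < R) :
    μH[1] ((R - r)⁻¹ • S) = len M r / ENNReal.ofReal (R - r) := by
  rw [smul_length (inv_pos.2 (sub_pos.2 hr)), h.eq_len, ENNReal.ofReal_inv_of_pos (sub_pos.2 hr),
    div_eq_mul_inv, mul_comm]

lemma len_eq {R r : ℝ} (hr : 0 < r) (hrR : r < R) (hd : 1 ≤ d) (h2 : R ^ 2 ≤ 2 * r ^ 2) :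
    len (closedBall (0 : E d) R) r = len (sphere (0 : E d) R) r := by
  have hR : 0 < R := hr.trans hrR
  set ρ : ℝ := √(R ^ 2 - r ^ 2) with hρ
  have hρ0 : 0 ≤ ρ := Real.sqrt_nonneg _
  have hρ2 : ρ ^ 2 = R ^ 2 - r ^ 2 := Real.sq_sqrt (by nlinarith)
  have hρr : ρ ≤ r := by
    refine le_of_sq_le_sq ?_ hr.le
    rw [hρ2]
    linarith
  refine le_antisymm (le_iInf₂ fun S' h' => ?_) (len_mono sphere_subset_closedBall)
  have h3 := h'.proj (ρ := ρ) sphere_subset_closedBall hr.le hρ0 (by rw [hρ2]; linarith)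
  have h4 := h3.ball hR hd (by
    rintro _ ⟨x, -, rfl⟩
    rw [mem_closedBall_zero_iff]
    exact (P_norm hρ0 x).trans hρr)
  refine (len_le h4).trans ?_
  have := (P_lip (d := d) hρ0).hausdorffMeasure_image_le zero_le_one S'
  simpa using this

end Pool.Agent.N225.MD
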